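import Pool.Agent.W475.BQ.Super

set_option autoImplicit false

namespace Pool.Agent.W475.BQ.Qpb2

open Pool.Agent.W488.IW Pool.Agent.W488.IX Pool.Agent.W682.BQ
open Pool.Agent.W360.BQ (Cf Vg QCF S_FLOWF S_NULLF)

theorem main (hL : S_QLB) (hW : S_WKB2) : S_QPB2 := Pool.Agent.W475.BQ.qpb2 hL hW

end Pool.Agent.W475.BQ.Qpb2
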