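import Pool.Agent.W682.BQ.Stm
import Pool.Agent.W239.IW.Wk

/-! Project BQ: superposition of quasiconvex functions (parts WKB, QPB, QPB2). -/

set_option autoImplicit false

namespace Pool.Agent.W475.BQ

open MeasureTheory Set Filter Topology
open Pool.Agent.W488.IW Pool.Agent.W488.IX Pool.Agent.W682.BQ
open Pool.Agent.W360.BQ (Cf Vg QCF S_FLOWF S_NULLF)

lemma tp_cont (Λ : Finset Idx) (w c : Idx → ℂ) : Continuous (tp Λ w c) := by
  unfold tp ek
  fun_prop

theorem superpose (B : ℝ → ℝ → ℝ) (k : ℝ → ℝ → ℝ → ℝ) (ω : ℝ → ℝ) (C : ℝ) (hC : 0 ≤ C)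
    (hω : ∀ s : ℝ, 0 < s → 0 ≤ ω s)
    (hrep : ∀ x y : ℝ, 0 ≤ x → 0 ≤ y → B x y = C * ∫ s in Ioi (0 : ℝ), ω s * k s x y)
    (hcont : ContinuousOn (fun z : ℝ × ℝ × ℝ => ω z.1 * k z.1 z.2.1 z.2.2)
      (Ioi (0 : ℝ) ×ˢ (univ : Set (ℝ × ℝ))))
    (hmaj : ∀ R : ℝ, 0 < R → ∃ g : ℝ → ℝ, IntegrableOn g (Ioi 0) ∧ ∀ s : ℝ, 0 < s →
      ∀ x y : ℝ, 0 ≤ x → x ≤ R → 0 ≤ y → y ≤ R → |ω s * k s x y| ≤ g s)
    (hQ : ∀ s : ℝ, 0 < s → QCB (fun F => k s ‖F.1‖ ‖F.2‖)) :
    QCB (fun F => B ‖F.1‖ ‖F.2‖) := by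
  intro F0 N c
  set μ : Measure V := volume.restrict (Icc (0 : V) 1) with hμ
  set ν : Measure ℝ := volume.restrict (Ioi (0 : ℝ)) with hν
  have hga : Continuous fun x : V => ‖(F0 + gd (box N) c x).1‖ :=
    (continuous_const.add (tp_cont _ _ _)).norm
  have hgb : Continuous fun x : V => ‖(F0 + gd (box N) c x).2‖ :=
    (continuous_const.add (tp_cont _ _ _)).norm
  obtain ⟨R, hR0, hRF1, hRF2, hR⟩ : ∃ R : ℝ, 0 < R ∧ ‖F0.1‖ ≤ R ∧ ‖F0.2‖ ≤ R ∧
      ∀ x ∈ Icc (0 : V) 1, ‖(F0 + gd (box N) c x).1‖ ≤ R ∧ ‖(F0 + gd (box N) c x).2‖ ≤ R := by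
    obtain ⟨R1, h1⟩ := (isCompact_Icc (a := (0 : V)) (b := 1)).bddAbove_image hga.continuousOn
    obtain ⟨R2, h2⟩ := (isCompact_Icc (a := (0 : V)) (b := 1)).bddAbove_image hgb.continuousOn
    refine ⟨max (max R1 R2) (‖F0.1‖ + ‖F0.2‖ + 1), ?_, ?_, ?_, fun x hx => ⟨?_, ?_⟩⟩
    · have := norm_nonneg F0.1
      have := norm_nonneg F0.2
      exact lt_of_lt_of_le (by positivity) (le_max_right _ _)
    · have := norm_nonneg F0.2
      exact le_trans (by linarith) (le_max_right _ _)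
    · have := norm_nonneg F0.1
      exact le_trans (by linarith) (le_max_right _ _)
    · exact le_trans (h1 (mem_image_of_mem _ hx)) (le_trans (le_max_left _ _) (le_max_left _ _))
    · exact le_trans (h2 (mem_image_of_mem _ hx)) (le_trans (le_max_right _ _) (le_max_left _ _))
  obtain ⟨g, hg, hgb'⟩ := hmaj R hR0
  set G : ℝ × V → ℝ := fun z => ω z.1 *
    k z.1 ‖(F0 + gd (box N) c z.2).1‖ ‖(F0 + gd (box N) c z.2).2‖ with hG
  have hfin : IsFiniteMeasure μ := by
    rw [hμ]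
    refine ⟨?_⟩
    rw [Measure.restrict_apply_univ]
    exact (isCompact_Icc (a := (0 : V)) (b := 1)).measure_lt_top
  -- measurability
  have hmeas : AEStronglyMeasurable G (ν.prod μ) := by
    rw [hν, hμ, Measure.prod_restrict]
    refine ContinuousOn.aestronglyMeasurable ?_ (measurableSet_Ioi.prod measurableSet_Icc)
    have c2 : Continuous fun z : ℝ × V =>
        ((z.1, ‖(F0 + gd (box N) c z.2).1‖, ‖(F0 + gd (box N) c z.2).2‖) : ℝ × ℝ × ℝ) :=
      continuous_fst.prodMk ((hga.comp continuous_snd).prodMk (hgb.comp continuous_snd))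
    exact hcont.comp c2.continuousOn (fun z hz => ⟨hz.1, mem_univ _⟩)
  have hmaj' : Integrable (fun z : ℝ × V => g z.1 * (1 : ℝ)) (ν.prod μ) :=
    Integrable.mul_prod (f := g) (g := fun _ : V => (1 : ℝ)) hg (integrable_const _)
  have hint : Integrable G (ν.prod μ) := by
    refine hmaj'.mono' hmeas ?_
    rw [hν, hμ, Measure.prod_restrict]
    refine (ae_restrict_mem (measurableSet_Ioi.prod measurableSet_Icc)).mono ?_
    rintro ⟨s, x⟩ ⟨hs, hx⟩
    obtain ⟨hx1, hx2⟩ := hR x hx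
    have hb := hgb' s hs _ _ (norm_nonneg _) hx1 (norm_nonneg _) hx2
    simp only [hG, mul_one, Real.norm_eq_abs]
    exact hb
  have hmeas0 : AEStronglyMeasurable (fun s => ω s * k s ‖F0.1‖ ‖F0.2‖) ν := by
    rw [hν]
    refine ContinuousOn.aestronglyMeasurable ?_ measurableSet_Ioi
    have c2 : Continuous fun s : ℝ => ((s, ‖F0.1‖, ‖F0.2‖) : ℝ × ℝ × ℝ) := by fun_prop
    exact hcont.comp c2.continuousOn (fun z hz => ⟨hz, mem_univ _⟩)
  have hint0 : Integrable (fun s => ω s * k s ‖F0.1‖ ‖F0.2‖) ν := by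
    refine Integrable.mono' hg hmeas0 ?_
    rw [hν]
    refine (ae_restrict_mem measurableSet_Ioi).mono ?_
    intro s hs
    rw [Real.norm_eq_abs]
    exact hgb' s hs _ _ (norm_nonneg _) hRF1 (norm_nonneg _) hRF2
  -- Fubini
  have key : ∫ x, B ‖(F0 + gd (box N) c x).1‖ ‖(F0 + gd (box N) c x).2‖ ∂μ
      = C * ∫ s, (∫ x, G (s, x) ∂μ) ∂ν := by
    have e1 : ∫ x, B ‖(F0 + gd (box N) c x).1‖ ‖(F0 + gd (box N) c x).2‖ ∂μ
        = ∫ x, (C * ∫ s, G (s, x) ∂ν) ∂μ := by
      refine integral_congr_ae (Eventually.of_forall fun x => ?_)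
      exact hrep _ _ (norm_nonneg _) (norm_nonneg _)
    rw [e1, integral_const_mul]
    congr 1
    rw [← integral_integral_swap (f := fun s x => G (s, x)) hint]
  change B ‖F0.1‖ ‖F0.2‖ ≤ ∫ x, B ‖(F0 + gd (box N) c x).1‖ ‖(F0 + gd (box N) c x).2‖ ∂μ
  rw [key, hrep _ _ (norm_nonneg _) (norm_nonneg _)]
  refine mul_le_mul_of_nonneg_left ?_ hC
  change ∫ s, ω s * k s ‖F0.1‖ ‖F0.2‖ ∂ν ≤ ∫ s, (∫ x, G (s, x) ∂μ) ∂ν
  refine integral_mono_ae hint0 hint.integral_prod_left ?_
  rw [hν]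
  refine (ae_restrict_mem measurableSet_Ioi).mono ?_
  intro s hs
  change ω s * k s ‖F0.1‖ ‖F0.2‖ ≤ ∫ x, G (s, x) ∂μ
  simp only [hG]
  rw [integral_const_mul]
  exact mul_le_mul_of_nonneg_left (hQ s hs F0 N c) (hω s hs)

/-- BQ-WKB -/
theorem wkb : S_WKB := by
  intro p x y hp hx hy
  set t := x + y with ht
  have ht0 : 0 ≤ t := by positivity
  obtain ⟨j1, k1⟩ := Pool.Agent.W239.IW.Wk.lin (p - 3) t (by linarith) ht0
  obtain ⟨j2, k2⟩ := Pool.Agent.W239.IW.Wk.quad (p - 3) t (by linarith) ht0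
  have heq : ∀ s ∈ Ioi (0 : ℝ), x * (s ^ (p - 3) * max (t - s) 0) -
      1 / 2 * (s ^ (p - 3) * max (t - s) 0 ^ 2) = s ^ (p - 2) * Kt s x y := by
    intro s hs
    have hs' : (0 : ℝ) < s := hs
    have h1 : s ^ (p - 2) = s ^ (p - 3) * s := by
      rw [← Real.rpow_add_one hs'.ne']; congr 1; ring
    rw [Kt, ← ht, h1]
    field_simp
  have f1 : IntegrableOn (fun s => x * (s ^ (p - 3) * max (t - s) 0)) (Ioi 0) := j1.const_mul x
  have f2 : IntegrableOn (fun s => 1 / 2 * (s ^ (p - 3) * max (t - s) 0 ^ 2)) (Ioi 0) :=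
    j2.const_mul (1 / 2)
  have hint : IntegrableOn (fun s => x * (s ^ (p - 3) * max (t - s) 0) -
      1 / 2 * (s ^ (p - 3) * max (t - s) 0 ^ 2)) (Ioi 0) := f1.sub f2
  refine ⟨hint.congr_fun heq measurableSet_Ioi, ?_⟩
  rw [← setIntegral_congr_fun measurableSet_Ioi heq, integral_sub f1 f2, integral_const_mul,
    integral_const_mul, k1, k2, Bp, ← ht]
  have h2 : t ^ p = t * t ^ (p - 1) := by
    rcases ht0.eq_or_lt with h0 | h0
    · rw [← h0, Real.zero_rpow (by linarith), zero_mul]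
    · rw [← Real.rpow_one_add' ht0 (by linarith)]; congr 1; ring
  rw [show p - 3 + 2 = p - 1 by ring, show p - 3 + 3 = p by ring, show p - 3 + 1 = p - 2 by ring,
    h2]
  have e1 : p - 2 ≠ 0 := by linarith
  have e2 : p - 1 ≠ 0 := by linarith
  have e3 : p ≠ 0 := by linarith
  field_simp
  rw [ht]
  ring

lemma Kt_bound {R s x y : ℝ} (hs : 0 < s) (hx : 0 ≤ x) (hxR : x ≤ R) (hy : 0 ≤ y) (hyR : y ≤ R) :
    |Kt s x y| ≤ (8 * R ^ 2) * (Set.indicator (Ioc 0 (2 * R)) (fun t : ℝ => t⁻¹) s) := by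
  by_cases h : s ≤ 2 * R
  · rw [Set.indicator_of_mem (show s ∈ Ioc 0 (2 * R) from ⟨hs, h⟩)]
    have hR : 0 < R := by linarith
    have h1 : 0 ≤ max (x + y - s) 0 := le_max_right _ _
    have h2 : max (x + y - s) 0 ≤ 2 * R := max_le (by linarith) (by linarith)
    unfold Kt
    set u := max (x + y - s) 0
    rw [div_eq_mul_inv, abs_mul, abs_of_pos (inv_pos.mpr hs)]
    refine mul_le_mul_of_nonneg_right ?_ (inv_pos.mpr hs).le
    have a1 : x * u ≤ R * (2 * R) := mul_le_mul hxR h2 h1 hR.le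
    have a2 : 0 ≤ x * u := mul_nonneg hx h1
    have a3 : u ^ 2 ≤ (2 * R) ^ 2 := pow_le_pow_left₀ h1 h2 2
    have a4 : 0 ≤ u ^ 2 := sq_nonneg u
    rw [abs_le]
    constructor <;> nlinarith
  · rw [Set.indicator_of_notMem (fun hh => h hh.2)]
    have h' : 2 * R < s := not_le.mp h
    unfold Kt
    rw [max_eq_right (by linarith : x + y - s ≤ 0)]
    simp

/-- BQ-QPB -/
theorem qpb (hK : S_QKB) (hW : S_WKB) : S_QPB := by
  intro p hp
  refine superpose (Bp p) Kt (fun s => s ^ (p - 2)) (p * (p - 1) * (p - 2)) ?_ ?_ ?_ ?_ ?_ hK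
  · exact mul_nonneg (mul_nonneg (by linarith) (by linarith)) (by linarith)
  · intro s hs
    exact Real.rpow_nonneg hs.le _
  · intro x y hx hy
    exact (hW p x y hp hx hy).2
  · refine ContinuousOn.mul ?_ ?_
    · refine ContinuousOn.rpow_const continuousOn_fst ?_
      intro z hz
      left
      exact ne_of_gt hz.1
    · unfold Kt
      refine ContinuousOn.div ?_ continuousOn_fst ?_
      · exact Continuous.continuousOn (by fun_prop)
      · intro z hz
        exact ne_of_gt hz.1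
  · intro R hR
    refine ⟨fun s => (8 * R ^ 2) *
      (Set.indicator (Ioc 0 (2 * R)) (fun t : ℝ => t ^ (p - 3)) s), ?_, ?_⟩
    · refine Integrable.const_mul ?_ _
      rw [integrable_indicator_iff measurableSet_Ioc, IntegrableOn,
        Measure.restrict_restrict measurableSet_Ioc]
      have e : Ioc (0 : ℝ) (2 * R) ∩ Ioi 0 = Ioc (0 : ℝ) (2 * R) := by
        ext t
        simp only [mem_inter_iff, mem_Ioc, mem_Ioi]
        tauto
      rw [e]
      have := (intervalIntegral.intervalIntegrable_rpow' (a := 0) (b := 2 * R)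
        (show -1 < p - 3 by linarith))
      exact (intervalIntegrable_iff_integrableOn_Ioc_of_le (by linarith)).mp this
    · intro s hs x y hx hxR hy hyR
      have hb := Kt_bound hs hx hxR hy hyR
      rw [abs_mul, abs_of_nonneg (Real.rpow_nonneg hs.le _)]
      refine (mul_le_mul_of_nonneg_left hb (Real.rpow_nonneg hs.le _)).trans ?_
      beta_reduce
      by_cases hsm : s ∈ Ioc 0 (2 * R)
      · rw [Set.indicator_of_mem hsm, Set.indicator_of_mem hsm]
        have : s ^ (p - 3) = s ^ (p - 2) * s⁻¹ := by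
          rw [← Real.rpow_neg_one, ← Real.rpow_add hs]
          congr 1
          ring
        rw [this]
        exact le_of_eq (by ring)
      · rw [Set.indicator_of_notMem hsm, Set.indicator_of_notMem hsm]
        simp

lemma Ls_cont : Continuous (fun z : ℝ × ℝ × ℝ => Ls z.1 z.2.1 z.2.2) := by
  unfold Ls
  refine Continuous.if_le (by fun_prop) (by fun_prop) (by fun_prop) (by fun_prop) ?_
  intro z hz
  rw [← hz]
  ring

lemma Ls_bound {R t x y : ℝ} (hR : 0 < R) (ht : 0 < t) (hx : 0 ≤ x) (hxR : x ≤ R) (hy : 0 ≤ y)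
    (hyR : y ≤ R) : |Ls t x y| ≤ (Set.indicator (Ioc 0 (2 * R)) (fun t : ℝ => 4 * R * t) t) +
      (Set.indicator (Ioi (2 * R)) (fun _ : ℝ => R ^ 2) t) := by
  by_cases h : t ≤ 2 * R
  · rw [Set.indicator_of_mem (show t ∈ Ioc 0 (2 * R) from ⟨ht, h⟩),
      Set.indicator_of_notMem (show t ∉ Ioi (2 * R) from not_lt.2 h), add_zero]
    unfold Ls
    split_ifs with h1
    · have e : x ^ 2 - y ^ 2 = (x - y) * (x + y) := by ring
      rw [e, abs_mul, abs_of_nonneg (by linarith : 0 ≤ x + y)]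
      have h2 : |x - y| ≤ R := by rw [abs_le]; constructor <;> linarith
      calc |x - y| * (x + y) ≤ R * t := mul_le_mul h2 h1 (by linarith) hR.le
        _ ≤ 4 * R * t := by nlinarith
    · rw [abs_le]
      constructor <;> nlinarith [mul_nonneg ht.le hx, mul_le_mul_of_nonneg_left hxR ht.le,
        mul_le_mul_of_nonneg_left h ht.le]
  · have h' : 2 * R < t := not_le.1 h
    rw [Set.indicator_of_notMem (fun hh => h hh.2),
      Set.indicator_of_mem (show t ∈ Ioi (2 * R) from h'), zero_add]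
    unfold Ls
    rw [if_pos (by linarith)]
    rw [abs_le]
    constructor <;> nlinarith

/-- BQ-QPB2 -/
theorem qpb2 (hL : S_QLB) (hW : S_WKB2) : S_QPB2 := by
  intro p hp hp2
  refine superpose (Bp2 p) Ls (fun s => s ^ (p - 3)) (p * (2 - p) * (p - 1) / 2) ?_ ?_ ?_ ?_ ?_ hL
  · have := mul_nonneg (mul_nonneg (by linarith : (0 : ℝ) ≤ p) (by linarith : (0 : ℝ) ≤ 2 - p))
      (by linarith : (0 : ℝ) ≤ p - 1)
    linarith
  · intro s hs
    exact Real.rpow_nonneg hs.le _
  · intro x y hx hy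
    exact (hW p x y hp hp2 hx hy).2
  · refine ContinuousOn.mul ?_ Ls_cont.continuousOn
    refine ContinuousOn.rpow_const continuousOn_fst ?_
    intro z hz
    left
    exact ne_of_gt hz.1
  · intro R hR
    refine ⟨fun s => (Set.indicator (Ioc 0 (2 * R)) (fun t : ℝ => 4 * R * t ^ (p - 2)) s) +
      (Set.indicator (Ioi (2 * R)) (fun t : ℝ => R ^ 2 * t ^ (p - 3)) s), ?_, ?_⟩
    · refine Integrable.add ?_ ?_
      · rw [integrable_indicator_iff measurableSet_Ioc, IntegrableOn,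
          Measure.restrict_restrict measurableSet_Ioc]
        have e : Ioc (0 : ℝ) (2 * R) ∩ Ioi 0 = Ioc (0 : ℝ) (2 * R) := by
          ext t
          simp only [mem_inter_iff, mem_Ioc, mem_Ioi]
          tauto
        rw [e]
        have := (intervalIntegral.intervalIntegrable_rpow' (a := 0) (b := 2 * R)
          (show -1 < p - 2 by linarith)).const_mul (4 * R)
        exact (intervalIntegrable_iff_integrableOn_Ioc_of_le (by linarith)).mp this
      · rw [integrable_indicator_iff measurableSet_Ioi, IntegrableOn,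
          Measure.restrict_restrict measurableSet_Ioi]
        have e : Ioi (2 * R) ∩ Ioi 0 = Ioi (2 * R) := by
          ext t
          simp only [mem_inter_iff, mem_Ioi]
          constructor
          · exact fun h => h.1
          · exact fun h => ⟨h, by linarith⟩
        rw [e]
        exact (integrableOn_Ioi_rpow_of_lt (by linarith) (by linarith)).const_mul (R ^ 2)
    · intro s hs x y hx hxR hy hyR
      have hb := Ls_bound hR hs hx hxR hy hyR
      rw [abs_mul, abs_of_nonneg (Real.rpow_nonneg hs.le _)]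
      refine (mul_le_mul_of_nonneg_left hb (Real.rpow_nonneg hs.le _)).trans (le_of_eq ?_)
      rw [mul_add]
      have h1 : s ^ (p - 2) = s ^ (p - 3) * s := by
        rw [← Real.rpow_add_one hs.ne']; congr 1; ring
      congr 1
      · by_cases hsm : s ∈ Ioc 0 (2 * R)
        · rw [Set.indicator_of_mem hsm, Set.indicator_of_mem hsm, h1]
          ring
        · rw [Set.indicator_of_notMem hsm, Set.indicator_of_notMem hsm, mul_zero]
      · by_cases hsm : s ∈ Ioi (2 * R)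
        · rw [Set.indicator_of_mem hsm, Set.indicator_of_mem hsm, mul_comm]
        · rw [Set.indicator_of_notMem hsm, Set.indicator_of_notMem hsm, mul_zero]

end Pool.Agent.W475.BQ
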