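import Pool.Agent.W475.BQ.Super

set_option autoImplicit false

namespace Pool.Agent.W475.BQ.Wkb

open Pool.Agent.W488.IW Pool.Agent.W488.IX Pool.Agent.W682.BQ
open Pool.Agent.W360.BQ (Cf Vg QCF S_FLOWF S_NULLF)

theorem main : S_WKB := Pool.Agent.W475.BQ.wkb

end Pool.Agent.W475.BQ.Wkb
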